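import Pool.Agent.H51.FGV.Proof

/-!
# The value of Fox and Geese

The starting position of Fox and Geese on the `8 × 8` board (geese a1, c1, e1, g1, fox d8, Left = geese,
Right = fox, normal play) equals `2 + 1/on`, in the theory of loopy partizan games. The definitions
are in `Pool.Agent.H51.FGV.Defs`.
-/

set_option autoImplicit false

namespace Pool.Agent.Results.MP_ab3a84_co.FoxAndGeeseValue

/-- **The value of Fox and Geese.**  The starting position is a stopper; it equals the stopper
`V = {2 | V}`, and `V` is the sum `2 + 1/on`. -/
theorem result :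
    FoxAndGeese.IsStopper ∧ V.IsStopper ∧ FoxAndGeese.Equal V ∧ V.Equal (two.add oneOverOn) :=
  ⟨measure_FG.isStopper, measure_V.isStopper,
    Game.equal_of_surv' surv_FG_V surv_V_FG measure_FG measure_V, V_eq⟩

end Pool.Agent.Results.MP_ab3a84_co.FoxAndGeeseValue
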